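import Pool.Agent.X216.FW.Both
import Pool.Agent.W684.FM.Main
import Pool.Agent.W684.FM.Ambient
import Pool.Agent.Helper647.GR.ForceCH

/-!
# Squares of Lindelof trees in the fine wedge topology

The statement that the square of every Lindelof tree is Lindelof is independent of ZFC.

(1), (2): the continuum hypothesis can be forced, and it gives a counterexample: a tree consisting
of all finite sequences of natural numbers and of uncountably many infinite ones, which meet every
compact set in a countable set.

(3), (4), (5): Martin's axiom for `ℵ₁` dense sets can be forced, and it implies that the product of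
two Lindelof trees is Lindelof. If not, there is a family of `ℵ₁` points of the product without
condensation points; the tree generated by the first coordinates is countably branching and has no
uncountable chains, so it is special by the theorem of Baumgartner, Malitz and Reinhardt, and the
bounding number is larger than `ℵ₁`; together these give an uncountable subfamily whose first
coordinates generate a finitely splitting tree, which is impossible in a Lindelof tree.

Definitions used in the statement (files `Pool.Agent.X216.FW.Defs`, `Pool.Agent.W684.MADef`,
`Pool.Agent.W684.FM.Defs`, `Pool.Agent.Helper669.Forcing`, `Pool.Agent.Helper647.GR.ForceCH`):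
* `IsTree T`: for every `x` the set of the elements below `x` is well-ordered.
* `LindelofTree T`: `T` is Lindelof in the fine wedge topology, which is generated by the sets
  `V_t = {s | t ≤ s}` and their complements.
* `LindelofProd S T`: `S × T` is Lindelof in the product of the fine wedge topologies.
* `MartinAxiomAleph1`: the usual form of Martin's axiom for `ℵ₁` dense sets; `MartinFor Om1` is an
  equivalent form, and `MartinHolds P Om1` is its literal translation into the forcing language.
* `CHHolds P`, `OmegaOnePreserved P`, `CardinalsPreserved P`: the sets of the conditions which force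
  the continuum hypothesis, that `ω₁` is preserved, and that all cardinals are preserved.
-/

set_option autoImplicit false

namespace Pool.Agent.Results.MP_2757db_lc.IndependentOfZFC

open Cardinal Pool.Agent.X216.FW Pool.Agent.W684 Pool.Agent.W684.FM

/-- The statement that `T × T` is Lindelof whenever the tree `T` is Lindelof in the fine wedge
topology is independent of ZFC. (1) The continuum hypothesis can be forced. (2) Under the continuum
hypothesis there is a Lindelof tree whose square is not Lindelof. (3) Martin's axiom for `ℵ₁` dense
sets can be forced. (4) The form of Martin's axiom used in (3) is equivalent to the usual one.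
(5) Under Martin's axiom for `ℵ₁` dense sets the product of any two Lindelof trees is Lindelof. -/
theorem result :
    (∃ (P : Type) (_ : Preorder P), Nonempty P ∧ ∀ p : P,
      p ∈ Pool.Agent.Helper647.GR.ForceCH.OmegaOnePreserved P ∧
        p ∈ Pool.Agent.Helper647.GR.ForceCH.CHHolds P) ∧
    ((ℵ₁ : Cardinal.{0}) = 𝔠 →
      ∃ (T : Type) (_ : PartialOrder T), IsTree T ∧ LindelofTree T ∧ ¬ LindelofProd T T) ∧
    (∃ (P : Type) (_ : Preorder P), Nonempty P ∧ ∀ p : P,
      p ∈ Pool.Agent.Helper669.Forcing.CardinalsPreserved.{0, 0} P ∧
        p ∈ Pool.Agent.W684.FM.OmegaOnePreserved P ∧ p ∈ MartinHolds P Om1) ∧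
    (MartinFor Om1 ↔ MartinAxiomAleph1) ∧
    (MartinAxiomAleph1 → ∀ (S T : Type) [PartialOrder S] [PartialOrder T], IsTree S → IsTree T →
      LindelofTree S → LindelofTree T → LindelofProd S T) := by
  refine ⟨?_, ch_example, exists_forcing Om1, martinFor_om1_iff,
    fun hMA S T _ _ hS hT hSL hTL => product hMA S T hS hT hSL hTL⟩
  obtain ⟨P, hP, hne, h⟩ := Pool.Agent.Helper647.GR.ForceCH.exists_forcing
  exact ⟨P, hP, hne, fun p => ⟨(h p).1, (h p).2.2⟩⟩

end Pool.Agent.Results.MP_2757db_lc.IndependentOfZFC
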